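import Pool.Agent.Work.MP_db9399_sx.Pre

/-!
# MP_db9399, exception (iv), the spots (K-clusters) in the frame of note 1519 (owner helper1)

`PrepQ` = what the outside stage has to deliver at the spots: thirds, loads, available own colours,
missing colours of the vertices of `UH` outside the spots. No types, no guards, no parities, no
balance. `Stmt_ENDQ`: from `PrepQ` to the total colouring. `OwnQ` = facts about the own colours of the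
outer vertices from which the availability follows (`Stmt_PRQ`). `Stmt_KQ` = both together.
-/

set_option autoImplicit false

namespace Pool.Agent.Work.MP_db9399_xq

open Finset Classical
open Pool.Agent.Work.MP_db9399_all (nb)
open Pool.Agent.Work.MP_db9399_dn (IsMat Tot)
open Pool.Agent.Work.MP_db9399_bg (HPre)
open Pool.Agent.Work.MP_db9399_sl (InS Same Gout Gss Gin Gex Out Vert)
open Pool.Agent.Work.MP_db9399_sv (Cor Mis slo ms FE GsL GxL bt slL Bas Sit)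
open Pool.Agent.Work.MP_db9399_sw (shs sms wt wl od ac avl SHH Gxh Grh Lgt)
open Pool.Agent.Work.MP_db9399_sx (Grp Lts ubl)
open _root_.MP_db9399_co

universe u

section defs
variable {V : Type u} [Fintype V] {k : ℕ}

/-- The situation when everything outside the spots is coloured (all edges with an end outside the
spots or in `Hs`, all own colours outside the spots). `Hs` = few exceptional spot vertices; the light
vertices have outer degree at most `θ' d`. `Fy Y` = colours which are not used as own colours in the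
short spot `Y` (blocked by `UH`), `Mt` = glued pairs (`pn Y` pairs in `Y`), `μ y` = the missing colour
of `y ∈ UH` outside the spots. -/
structure PrepQ (δ π θ θ' ε2 ε x η : ℝ) (G EH : SimpleGraph V) (d : ℕ)
    (Ys : Finset (Finset V)) (UH Hs : Finset V) (c0 tu cc : V → Fin k)
    (t : V → V → Fin k) (E : V → Finset (Fin k)) (K0 : Finset (Fin k))
    (C : Fin 3 → Finset (Fin k)) (p : V → Fin 3) (a : V → Bool) (Z : Finset V)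
    (μ : V → Fin k) (Fy : Finset V → Finset (Fin k)) (Mt : SimpleGraph V)
    (pn : Finset V → ℕ) : Prop where
  grp : Grp θ θ' η G EH d Ys UH Hs c0 tu
  out : Out δ π G (Gxh G Ys Hs) (Grh G EH Ys Hs) EH d Ys UH c0 tu cc t E K0 C p a Z
  Cu : ∀ j, ((C j).card : ℝ) ≤ π * d + 1
  mis : ∀ y ∈ UH, ¬ InS Ys y → Mis G cc K0 μ t y
  hub : ∀ y ∈ UH, ¬ InS Ys y →
    (((nb G y).filter (fun v => InS Ys v ∧ v ∉ UH ∧ μ y ∈ E v)).card : ℝ) ≤ ε2 * d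
  hst : ∀ Y ∈ shs d Ys, ((∑ v ∈ (Y \ Hs) \ UH, ((nb G v).filter (fun y => y ∈ UH ∧
    ¬ InS Ys y ∧ μ y ∈ E v)).card : ℕ) : ℝ) ≤ ε * Y.card
  FyK : ∀ Y ∈ shs d Ys, Fy Y ⊆ K0
  uh : ∀ Y ∈ shs d Ys, ((Fy Y).card : ℝ) * (1 - ε) * Y.card ≤
    ((∑ v ∈ Y \ Hs, ((nb G v).filter (fun y => y ∉ Y ∧ y ∈ UH)).card : ℕ) : ℝ)
  big : ∀ Y ∈ shs d Ys, ∀ b ∈ K0, b ∉ Fy Y → b ∉ (Y ∩ UH).image c0 →
    2 * x * d ≤ ((avl G Ys UH cc E Y b).card : ℝ)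
  Fyc : ∀ Y ∈ shs d Ys, (Fy Y).card + Y.card ≤ d + 2 + pn Y
  pnF : ∀ Y ∈ shs d Ys, pn Y ≤ (Fy Y).card
  mat : IsMat Mt
  mta : ∀ v w, Mt.Adj v w → Same (shs d Ys) v w ∧ ¬ G.Adj v w ∧ v ∉ UH
  mtn : ∀ Y ∈ shs d Ys, (Y.filter (fun v => (nb Mt v).Nonempty)).card = 2 * pn Y

/-- The situation after SSE3 (`F0 v`, `v ∈ UH` = own colour and filling colours of the spot vertex
`v`; `t'`, `E'` = new colours, `s` = bound for the new load). -/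
structure MidQ (δ π s : ℝ) (G EH : SimpleGraph V) (d : ℕ)
    (Ys : Finset (Finset V)) (UH Hs : Finset V) (c0 tu cc : V → Fin k)
    (t : V → V → Fin k) (E F0 : V → Finset (Fin k)) (K0 : Finset (Fin k))
    (C : Fin 3 → Finset (Fin k)) (p : V → Fin 3) (a : V → Bool) (Z : Finset V)
    (μ : V → Fin k) (t' : V → V → Fin k) (E' : V → Finset (Fin k)) : Prop where
  out : Out δ π G (Gex G Ys) ⊥ EH d Ys UH c0 tu cc t' E' K0 C p a Z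
  tx : ∀ v w, G.Adj v w → ¬ InS Ys w → t' v w = t v w
  EE : ∀ v, E v ⊆ E' v
  EL : ∀ v, v ∉ Lts Ys Hs → E' v = E v
  ldn : ∀ Y ∈ Ys, ∀ b, ((Y.filter (fun v => b ∈ E' v ∧ b ∉ E v)).card : ℝ) ≤ s * d
  mu : ∀ v y, InS Ys v → v ∉ UH → y ∈ UH → ¬ InS Ys y → G.Adj v y → μ y ∉ E v → μ y ∉ E' v
  F0K : ∀ v ∈ UH, InS Ys v → F0 v ⊆ K0
  F0n : ∀ v ∈ UH, InS Ys v → (F0 v).card = if tu v ∈ K0 then 1 else 2
  F0u : ∀ v, (F0 v).card ≤ 2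
  F0d : ∀ v ∈ UH, InS Ys v → Disjoint (F0 v) (E' v)
  F0c : ∀ v ∈ UH, InS Ys v → c0 v ∈ K0 → c0 v ∈ F0 v

/-- Facts about the own colours `cc` outside the spots. `abs`: every outer vertex misses `ζ d`
vertices of the spot. A hub of `Y` is an outer vertex outside `UH` with at least `τ d` neighbours in
`Y`. `dif`: the hubs of one spot have different colours; `hub`: the colour of a hub is blocked by
`UH` at few vertices of `Y` only; `non`: few blocks by vertices which are no hubs. -/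
structure OwnQ (ζ τ ε3 : ℝ) (G : SimpleGraph V) (d : ℕ) (Ys : Finset (Finset V))
    (UH : Finset V) (c0 cc : V → Fin k) : Prop where
  abs : ∀ Y ∈ Ys, ∀ w, ¬ InS Ys w → ζ * d ≤ ((Y \ nb G w).card : ℝ)
  dif : ∀ Y ∈ shs d Ys, ∀ w w', ¬ InS Ys w → ¬ InS Ys w' → w ∉ UH → w' ∉ UH → w ≠ w' →
    τ * d ≤ ((nb G w ∩ Y).card : ℝ) → τ * d ≤ ((nb G w' ∩ Y).card : ℝ) → cc w ≠ cc w'
  hub : ∀ Y ∈ shs d Ys, ∀ w, ¬ InS Ys w → w ∉ UH → τ * d ≤ ((nb G w ∩ Y).card : ℝ) →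
    ((ubl G UH c0 Y (cc w)).card : ℝ) ≤ ζ / 4 * Y.card
  non : ∀ Y ∈ shs d Ys, ∀ b, ((∑ w ∈ univ.filter (fun w => ¬ InS Ys w ∧ w ∉ UH ∧ cc w = b ∧
    ((nb G w ∩ Y).card : ℝ) < τ * d), (nb G w ∩ Y).card : ℕ) : ℝ) ≤ ε3 * d

end defs

/-! ## Blocks -/

/-- MIDQ (from SSE3; compare MIDX): protected colours `F0 v` (`v ∈ UH`), otherwise the colours
`μ y ∉ E v` of the (at most two) neighbours `y ∈ UH` outside the spots; `Kss = K0`. -/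
def Stmt_MIDQ : Prop :=
  ∀ (δ π s : ℝ), 0 < δ → 1 / 4 ≤ π → π < 1 / 3 → δ ≤ 1 / 1000 → 0 < s →
    ∃ (θ' : ℝ) (d0 : ℕ), 0 < θ' ∧
    ∀ {V : Type u} [Fintype V] {k : ℕ} (θ ε2 ε x η : ℝ)
      (G EH : SimpleGraph V) (d : ℕ) (Ys : Finset (Finset V)) (UH Hs : Finset V)
      (c0 tu cc : V → Fin k) (t : V → V → Fin k) (E : V → Finset (Fin k)) (K0 : Finset (Fin k))
      (C : Fin 3 → Finset (Fin k)) (p : V → Fin 3) (a : V → Bool) (Z : Finset V)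
      (μ : V → Fin k) (Fy : Finset V → Finset (Fin k)) (Mt : SimpleGraph V)
      (pn : Finset V → ℕ), d0 ≤ d → θ ≤ 1 / 100 →
      PrepQ δ π θ θ' ε2 ε x η G EH d Ys UH Hs c0 tu cc t E K0 C p a Z μ Fy Mt pn →
      ∃ (F0 : V → Finset (Fin k)) (t' : V → V → Fin k) (E' : V → Finset (Fin k)),
        MidQ (2 * δ) π s G EH d Ys UH Hs c0 tu cc t E F0 K0 C p a Z μ t' E'

/-- SITQ (replaces GEO and SITX): `Sit` after SSE3. Permitted pairs `(y, v)`: `y ∈ UH` is poor (at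
most `δ1 d` light neighbours in short spots) or almost all these neighbours have the colour of `yv`;
dominated hubs as in GEO (in `UH`). -/
def Stmt_SITQ : Prop :=
  ∃ z : ℝ, 0 < z ∧ ∀ δ1 : ℝ, 0 < δ1 → ∃ ρ ε2 ε : ℝ, 0 < ρ ∧ 0 < ε2 ∧ 0 < ε ∧ ε ≤ 1 / 10 ∧
    ∀ δs θs : ℝ, 0 < δs → 0 < θs → ∃ θ : ℝ, 0 < θ ∧ ∃ (δ θ'0 : ℝ), 0 < δ ∧ 0 < θ'0 ∧
    ∀ ηs : ℝ, 0 < ηs → ∃ (η : ℝ) (d0 : ℕ), 0 < η ∧
    ∀ {V : Type u} [Fintype V] {k : ℕ} (δ' π θ' x s : ℝ)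
      (G EH : SimpleGraph V) (d : ℕ) (Ys : Finset (Finset V)) (UH Hs : Finset V)
      (c0 tu cc : V → Fin k) (t : V → V → Fin k) (E : V → Finset (Fin k)) (K0 : Finset (Fin k))
      (C : Fin 3 → Finset (Fin k)) (p : V → Fin 3) (a : V → Bool) (Z : Finset V)
      (μ : V → Fin k) (Fy : Finset V → Finset (Fin k)) (Mt : SimpleGraph V)
      (pn : Finset V → ℕ) (F0 : V → Finset (Fin k)) (t' : V → V → Fin k)
      (E' : V → Finset (Fin k)), d0 ≤ d → θ' ≤ θ'0 →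
      PrepQ δ' π θ θ' ε2 ε x η G EH d Ys UH Hs c0 tu cc t E K0 C p a Z μ Fy Mt pn →
      MidQ δ π s G EH d Ys UH Hs c0 tu cc t E F0 K0 C p a Z μ t' E' →
      ∃ (μ' : V → Fin k) (nL nD : Finset V → ℕ) (Pm : V → V → Prop)
        (Hb : Finset V → Finset V),
        Sit z δ1 ρ δs θs ηs G EH d Ys (shs d Ys) UH UH c0 tu cc t' E' F0 K0 μ' Pm nL nD
          (fun Y => Fy Y ∪ (Y ∩ UH).image c0) Hb ∧
        ∀ Y ∈ shs d Ys, (Fy Y).card = nL Y + nD Y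

/-- FINQ (from VMIX and FIN; compare FINX): after SERV. -/
def Stmt_FINQ : Prop :=
  ∃ (π δ θ : ℝ), 1 / 4 ≤ π ∧ π < 1 / 3 ∧ 0 < δ ∧ 0 < θ ∧ ∀ x : ℝ, 0 < x → x ≤ θ →
    ∃ (η : ℝ) (d0 : ℕ), 0 < η ∧
    ∀ {V : Type u} [Fintype V] {k : ℕ} (δ0 θ' ε2 ε s δ' : ℝ)
      (G EH : SimpleGraph V) (d : ℕ) (Ys : Finset (Finset V)) (UH Hs : Finset V)
      (c0 tu cc : V → Fin k) (t : V → V → Fin k) (E : V → Finset (Fin k)) (K0 : Finset (Fin k))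
      (C : Fin 3 → Finset (Fin k)) (p : V → Fin 3) (a : V → Bool) (Z : Finset V)
      (μ : V → Fin k) (Fy : Finset V → Finset (Fin k)) (Mt : SimpleGraph V)
      (pn : Finset V → ℕ) (F0 : V → Finset (Fin k)) (t' : V → V → Fin k)
      (E' : V → Finset (Fin k)) (t'' : V → V → Fin k) (E'' : V → Finset (Fin k))
      (T : Finset V), d0 ≤ d → s ≤ x / 2 → δ' ≤ x / 2 → δ' ≤ δ → ε ≤ 1 / 10 →
      PrepQ δ0 π θ θ' ε2 ε x η G EH d Ys UH Hs c0 tu cc t E K0 C p a Z μ Fy Mt pn →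
      MidQ δ π s G EH d Ys UH Hs c0 tu cc t E F0 K0 C p a Z μ t' E' →
      Cor G EH d Ys UH c0 tu cc t'' E'' F0 K0 → (∀ v, v ∉ T → E'' v = E' v) →
      (∀ Y ∈ Ys, ((Y ∩ T).card : ℝ) ≤ δ' * d) →
      (∀ Y ∈ shs d Ys, (Fy Y).card ≤ ((K0 \ (Fy Y ∪ (Y ∩ UH).image c0)).filter
        (fun b => Odd (ms Y UH F0 E'' b))).card) →
      ∃ (c' : V → Fin k) (t3 : V → V → Fin k), Tot G c' t3 ∧ (∀ v ∈ UH, c' v = c0 v) ∧
        ∀ v w, EH.Adj v w → t3 v w = tu v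

/-- ENDQ (from MIDQ, SITQ, SERV, FINQ). -/
def Stmt_ENDQ : Prop :=
  ∃ (π θ ε2 ε : ℝ), 1 / 4 ≤ π ∧ π < 1 / 3 ∧ 0 < θ ∧ θ ≤ 1 / 100 ∧ 0 < ε2 ∧ 0 < ε ∧
    ε ≤ 1 / 10 ∧ ∀ x : ℝ, 0 < x → x ≤ θ → ∃ (δ θ' η : ℝ) (d0 : ℕ), 0 < δ ∧ 0 < θ' ∧ 0 < η ∧
    ∀ {V : Type u} [Fintype V] {k : ℕ} (G EH : SimpleGraph V) (d : ℕ)
      (Ys : Finset (Finset V)) (UH Hs : Finset V) (c0 tu cc : V → Fin k)
      (t : V → V → Fin k) (E : V → Finset (Fin k)) (K0 : Finset (Fin k))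
      (C : Fin 3 → Finset (Fin k)) (p : V → Fin 3) (a : V → Bool) (Z : Finset V)
      (μ : V → Fin k) (Fy : Finset V → Finset (Fin k)) (Mt : SimpleGraph V)
      (pn : Finset V → ℕ), d0 ≤ d →
      PrepQ δ π θ θ' ε2 ε x η G EH d Ys UH Hs c0 tu cc t E K0 C p a Z μ Fy Mt pn →
      ∃ (c' : V → Fin k) (t3 : V → V → Fin k), Tot G c' t3 ∧ (∀ v ∈ UH, c' v = c0 v) ∧
        ∀ v w, EH.Adj v w → t3 v w = tu v

/-- PRQ (from MTP): availability and glued pairs. `Fy Y` = the colours blocked by `UH` at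
`(1 - ε) |Y|` light vertices. -/
def Stmt_PRQ : Prop :=
  ∀ (ζ ε θ : ℝ), 0 < ζ → ζ ≤ 1 → 0 < ε → ε ≤ 1 / 10 → 0 < θ → θ ≤ 1 / 100 →
    ∃ x : ℝ, 0 < x ∧ x ≤ θ ∧ ∃ (δ ε3 η : ℝ) (d0 : ℕ), 0 < δ ∧ 0 < ε3 ∧ 0 < η ∧
    ∀ {V : Type u} [Fintype V] {k : ℕ} (π θ' τ : ℝ) (G EH : SimpleGraph V) (d : ℕ)
      (Ys : Finset (Finset V)) (UH Hs : Finset V) (c0 tu cc : V → Fin k)
      (t : V → V → Fin k) (E : V → Finset (Fin k)) (K0 : Finset (Fin k))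
      (C : Fin 3 → Finset (Fin k)) (p : V → Fin 3) (a : V → Bool) (Z : Finset V), d0 ≤ d →
      Grp θ θ' η G EH d Ys UH Hs c0 tu →
      Out δ π G (Gxh G Ys Hs) (Grh G EH Ys Hs) EH d Ys UH c0 tu cc t E K0 C p a Z →
      (∀ Y ∈ Ys, ((Y ∩ Hs).card : ℝ) ≤ η * Y.card) → OwnQ ζ τ ε3 G d Ys UH c0 cc →
      ∃ (Fy : Finset V → Finset (Fin k)) (Mt : SimpleGraph V) (pn : Finset V → ℕ),
        (∀ Y ∈ shs d Ys, Fy Y ⊆ K0) ∧
        (∀ Y ∈ shs d Ys, ((Fy Y).card : ℝ) * (1 - ε) * Y.card ≤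
          ((∑ v ∈ Y \ Hs, ((nb G v).filter (fun y => y ∉ Y ∧ y ∈ UH)).card : ℕ) : ℝ)) ∧
        (∀ Y ∈ shs d Ys, ∀ b ∈ K0, b ∉ Fy Y → b ∉ (Y ∩ UH).image c0 →
          2 * x * d ≤ ((avl G Ys UH cc E Y b).card : ℝ)) ∧
        (∀ Y ∈ shs d Ys, (Fy Y).card + Y.card ≤ d + 2 + pn Y) ∧
        (∀ Y ∈ shs d Ys, pn Y ≤ (Fy Y).card) ∧ IsMat Mt ∧
        (∀ v w, Mt.Adj v w → Same (shs d Ys) v w ∧ ¬ G.Adj v w ∧ v ∉ UH) ∧
        ∀ Y ∈ shs d Ys, (Y.filter (fun v => (nb Mt v).Nonempty)).card = 2 * pn Y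

/-- KQ (from ENDQ and PRQ) = the K-side of the frame: everything that has to be known about the
spots. `δ` = load and exceptional vertices, `θ'` = outer degree of the light vertices, `η` = total
boundary and number of exceptional vertices, `ζ` = absorption threshold, `τ` arbitrary. -/
def Stmt_KQ : Prop :=
  ∃ (π θ ε2 ε : ℝ), 1 / 4 ≤ π ∧ π < 1 / 3 ∧ 0 < θ ∧ θ ≤ 1 / 100 ∧ 0 < ε2 ∧ 0 < ε ∧
    ∀ ζ : ℝ, 0 < ζ → ζ ≤ 1 → ∃ (δ ε3 θ' η : ℝ) (d0 : ℕ), 0 < δ ∧ 0 < ε3 ∧ 0 < θ' ∧ 0 < η ∧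
    ∀ {V : Type u} [Fintype V] {k : ℕ} (τ : ℝ) (G EH : SimpleGraph V) (d : ℕ)
      (Ys : Finset (Finset V)) (UH Hs : Finset V) (c0 tu cc : V → Fin k)
      (t : V → V → Fin k) (E : V → Finset (Fin k)) (K0 : Finset (Fin k))
      (C : Fin 3 → Finset (Fin k)) (p : V → Fin 3) (a : V → Bool) (Z : Finset V)
      (μ : V → Fin k), d0 ≤ d →
      Grp θ θ' η G EH d Ys UH Hs c0 tu →
      (∀ Y ∈ Ys, ((Y ∩ Hs).card : ℝ) ≤ η * Y.card) →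
      Out δ π G (Gxh G Ys Hs) (Grh G EH Ys Hs) EH d Ys UH c0 tu cc t E K0 C p a Z →
      (∀ j, ((C j).card : ℝ) ≤ π * d + 1) → OwnQ ζ τ ε3 G d Ys UH c0 cc →
      (∀ y ∈ UH, ¬ InS Ys y → Mis G cc K0 μ t y) →
      (∀ y ∈ UH, ¬ InS Ys y →
        (((nb G y).filter (fun v => InS Ys v ∧ v ∉ UH ∧ μ y ∈ E v)).card : ℝ) ≤ ε2 * d) →
      (∀ Y ∈ shs d Ys, ((∑ v ∈ (Y \ Hs) \ UH, ((nb G v).filter (fun y => y ∈ UH ∧
        ¬ InS Ys y ∧ μ y ∈ E v)).card : ℕ) : ℝ) ≤ ε * Y.card) →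
      ∃ (c' : V → Fin k) (t3 : V → V → Fin k), Tot G c' t3 ∧ (∀ v ∈ UH, c' v = c0 v) ∧
        ∀ v w, EH.Adj v w → t3 v w = tu v

end Pool.Agent.Work.MP_db9399_xq
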